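import Mathlib
import Pool.Agent.Q10.EPV.FieldV

set_option autoImplicit false

/-! # MP_600e55_nt: Efrat's conjecture for fields whose binary forms have few classes of values,
`p` odd -/

namespace Pool.Agent.Results.MP_600e55_nt.FewValues

open Pool.Agent.Y920.EP Pool.Agent.Q10.EPV

/-- the group of `p`-th powers of `F*` -/
def powers (F : Type) [Field F] (p : ℕ) : Subgroup Fˣ := (powMonoidHom p : Fˣ →* Fˣ).range

/-- the set of the classes modulo `p`-th powers of the nonzero values of `x ^ p + a y ^ p` -/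
def valueClasses {F : Type} [Field F] (p : ℕ) (a : Fˣ) : Set (Fˣ ⧸ powers F p) :=
  {g | ∃ (c : Fˣ) (x y : F), (c : F) = x ^ p + a * y ^ p ∧ (c : Fˣ ⧸ powers F p) = g}

/-- `K` is the compositum of the finite Galois extensions of `F` of `p`-power degree -/
def IsMaximalPExtension (p : ℕ) {F : Type} [Field F]
    (K : IntermediateField F (AlgebraicClosure F)) : Prop :=
  K = sSup {L : IntermediateField F (AlgebraicClosure F) |
    FiniteDimensional F L ∧ IsGalois F L ∧ ∃ k : ℕ, Module.finrank F L = p ^ k}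

theorem result (p : ℕ) [Fact p.Prime] (hp2 : p ≠ 2) (F : Type) [Field F]
    (hζ : ∃ ζ : F, IsPrimitiveRoot ζ p) (m k : ℕ) (hm1 : 1 ≤ m) (hk : 2 * m ≤ p ^ k)
    (hm : ∀ a : Fˣ, a ∉ powers F p →
      (valueClasses p a).Finite ∧ (valueClasses p a).ncard ≤ m) :
    -- a valuation ring whose units have few classes and whose one-units are `p`-th powers
    (∃ (O : ValuationSubring F) (U : Subgroup Fˣ), O.unitGroup ≤ U ∧ powers F p ≤ U ∧
      (powers F p).relIndex U ≠ 0 ∧ (powers F p).relIndex U ≤ 64 * 2 ^ k * p * m ^ 3 ∧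
      (p : F)⁻¹ ∈ O ∧ ∀ x : F, x ∈ O → x⁻¹ ∉ O → ∃ y : F, y ^ p = 1 + x) ∧
    ((powers F p).index = 0 ∨ 64 * 2 ^ k * p * m ^ 3 < (powers F p).index →
      ∀ K : IntermediateField F (AlgebraicClosure F), IsMaximalPExtension p K →
      -- `Gal(K/F)` is the decomposition group of a valuation with nontrivial inertia
      (∃ (Γ : Type) (_ : LinearOrderedCommGroupWithZero Γ) (w : Valuation K Γ),
        (∀ (σ : K ≃ₐ[F] K) (x : K), w (σ x) ≤ 1 ↔ w x ≤ 1) ∧
        ∃ σ : K ≃ₐ[F] K, σ ≠ 1 ∧ ∀ x : K, w x ≤ 1 → w (σ x - x) < 1) ∧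
      -- the conclusion of Q1
      ∃ (n : ℕ) (H : Fin n → Subgroup (↥K ≃ₐ[F] ↥K)),
        (∀ i, IsClosed (H i : Set (↥K ≃ₐ[F] ↥K))) ∧
        (∀ (P : Type) [Group P] [Finite P], (∃ k : ℕ, Nat.card P = p ^ k) →
          ∀ φ : (i : Fin n) → (H i →* P), (∀ i, IsOpen ((φ i).ker : Set (H i))) →
            ∃! ψ : (↥K ≃ₐ[F] ↥K) →* P,
              IsOpen (ψ.ker : Set (↥K ≃ₐ[F] ↥K)) ∧
              ∀ i, ∀ x : H i, ψ (x : ↥K ≃ₐ[F] ↥K) = φ i x) ∧
        (∀ i,
          Nonempty (H i ≃ₜ* Multiplicative (PadicInt p)) ∨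
          (∃ (Γ : Type) (_ : LinearOrderedCommGroupWithZero Γ) (w : Valuation (↥K) Γ),
            (∀ σ : ↥K ≃ₐ[F] ↥K, σ ∈ H i ↔ ∀ x : ↥K, (w (σ x) ≤ 1 ↔ w x ≤ 1)) ∧
            ∃ σ ∈ H i, σ ≠ 1 ∧ ∀ x : ↥K, w x ≤ 1 → w (σ x - x) < 1) ∨
          (p = 2 ∧ Nat.card (H i) = 2))) := by
  have hp : p.Prime := Fact.out
  have hG : AllG := ⟨Pool.Agent.Y86.EP.t_KUM, Pool.Agent.Y279.EP.t_UP,
    Pool.Agent.Y925.EP.t_TOWER', Pool.Agent.Y419.EP.t_INERT', Pool.Agent.Y469.EP.t_MAX'⟩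
  obtain ⟨U, O, h1, h2, h3, h4, h5⟩ := exists_ringV p hp hp2 F hζ m k hm1 hk fun a ha => by
    have e : (QuotientGroup.mk' (pwG F p)) '' valS p a = valueClasses p a := by
      ext g
      constructor
      · rintro ⟨c, ⟨x, y, hc⟩, rfl⟩
        exact ⟨c, x, y, hc, rfl⟩
      · rintro ⟨c, x, y, hc, rfl⟩
        exact ⟨c, ⟨x, y, hc⟩, rfl⟩
    rw [e]
    exact hm a ha
  refine ⟨⟨O, U, h4, h1, h2, h3, h5.1, h5.2.2⟩, ?_⟩
  intro hbig K hK
  have hU : ∃ c : Fˣ, c ∉ U := by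
    by_contra hc
    push Not at hc
    have : U = ⊤ := by
      rw [eq_top_iff]
      exact fun c _ => hc c
    rw [this, Subgroup.relIndex_top_right] at h2 h3
    rcases hbig with h | h
    · exact h2 h
    · exact absurd h3 (not_le.2 h)
  obtain ⟨c, hc⟩ := hU
  have hD : DecInert F K := decInert hG p hp hp2 F hζ O h5 ⟨c, ?_⟩ K hK
  · exact ⟨hD, efratP p F K hD⟩
  · rintro f ⟨h6, h7⟩
    apply hc
    have h8 : c * f ^ p ∈ O.unitGroup := by
      rw [ValuationSubring.mem_unitGroup_iff]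
      refine le_antisymm ((ValuationSubring.valuation_le_one_iff _ _).2 h6) ?_
      have h9 := (ValuationSubring.valuation_le_one_iff O _).2 h7
      rw [Units.val_inv_eq_inv_val, map_inv₀] at h9
      have h10 : O.valuation ((c * f ^ p : Fˣ) : F) ≠ 0 := by
        rw [Valuation.ne_zero_iff]
        exact Units.ne_zero _
      exact (inv_le_one₀ (zero_lt_iff.2 h10)).1 h9
    have h11 : f ^ p ∈ U := h1 ⟨f, rfl⟩
    have h12 := mul_mem (h4 h8) (inv_mem h11)
    rwa [mul_inv_cancel_right] at h12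

end Pool.Agent.Results.MP_600e55_nt.FewValues
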