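import Mathlib
import Pool.Agent.Q10.ETC3.Field
import Pool.Agent.Y920.ETC.GalH
import Pool.Agent.Y620.ET.Extv
import Pool.Agent.Y37.ET.Max2

set_option autoImplicit false

/-! # MP_600e55_nt: Efrat's conjecture for `p = 2` and fields with one small norm group

If some `x` which is not birigid has a norm group of order `n` modulo squares, then the exponent
two for the other norm groups suffices. -/

namespace Pool.Agent.Results.MP_600e55_nt.OneSmallNormGroup

open Pool.Agent.H315R3.ETC Pool.Agent.TH188.ET Pool.Agent.Y920.ETC Pool.Agent.Q10.ETC3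

/-- the group of squares of `F*` -/
def squares (F : Type) [Field F] : Subgroup Fˣ := (powMonoidHom 2 : Fˣ →* Fˣ).range

/-- the group of the nonzero values of `x² - a y²`: the norm group of `F(√a)` if `a` is not a
square -/
def normGroup {F : Type} [Field F] (a : Fˣ) : Subgroup Fˣ where
  carrier := {c | ∃ x y : F, (c : F) = x ^ 2 - a * y ^ 2}
  one_mem' := (nG a).one_mem
  mul_mem' := (nG a).mul_mem
  inv_mem' := (nG a).inv_mem

/-- `K` is the compositum of the finite Galois extensions of `F` of 2-power degree -/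
def IsMaximalTwoExtension {F : Type} [Field F] (K : IntermediateField F (AlgebraicClosure F)) :
    Prop :=
  K = sSup {L : IntermediateField F (AlgebraicClosure F) |
    FiniteDimensional F L ∧ IsGalois F L ∧ ∃ k : ℕ, Module.finrank F L = 2 ^ k}

open Pool.Agent.Q6.EV (V) in
/-- a quaternionic structure without birigid elements and with one small value group is small -/
theorem card_basic_small {S : QData} (h : IsQuat S) [Finite S.G] (B : Subgroup S.G)
    (hB : ∀ a : S.G, a ∈ B ↔ ¬ Bi S a) {x : S.G} (hxB : x ∈ B) (hx1 : x ≠ 1) (hxn : x ≠ S.neg)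
    (hs : ∀ a : S.G, a ≠ 1 → 8 * vs S a ^ 2 < Nat.card B)
    (hs' : ∀ a : S.G, a ≠ 1 → vs S x ^ 3 * vs S a ^ 2 ≤ 4 * Nat.card B) : False := by
  have hneg : S.neg ∈ B := (hB _).2 fun hb => hb.2.1 rfl
  have hK : ∀ a : S.G, a ∉ B → Bi S a := fun a ha => by
    by_contra hc
    exact ha ((hB a).2 hc)
  obtain ⟨hq, hin⟩ := isQuat_restrN h B hneg hK
  haveI : Finite (restrN S B hneg).G := inferInstanceAs (Finite B)
  have hvx : vs (restrN S B hneg) (⟨x, hxB⟩ : B) = vs S x :=
    vs_restrN h B hneg hK ⟨x, hxB⟩ (fun e => hx1 (congrArg Subtype.val e))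
  obtain ⟨b, hb⟩ := exists_bi_small (S := restrN S B hneg) hq (x := (⟨x, hxB⟩ : B))
    (fun e => hx1 (congrArg Subtype.val e)) (fun e => hxn (congrArg Subtype.val e)) (by
      intro (a : B) ha
      have h5 := vs_restrN h B hneg hK a ha
      have h6 : (a : S.G) ≠ 1 := fun e => ha (Subtype.ext e)
      rw [h5]
      exact hs _ h6) (by
      intro (a : B) ha
      have h5 := vs_restrN h B hneg hK a ha
      have h6 : (a : S.G) ≠ 1 := fun e => ha (Subtype.ext e)
      rw [h5, hvx]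
      exact hs' _ h6)
  obtain ⟨b1, b2, b3, b4⟩ := hb
  have hbB : (b : B).1 ∈ B := (b : B).2
  refine ((hB _).1 hbB) ⟨fun e => b1 (Subtype.ext e), fun e => b2 (Subtype.ext e), ?_, ?_⟩
  · intro e he
    have heB : e ∈ B := hin _ _ hbB (fun e => b1 (Subtype.ext e)) he
    rcases b3 ⟨e, heB⟩ he with h5 | h5
    · exact Or.inl (congrArg Subtype.val h5)
    · exact Or.inr (congrArg Subtype.val h5)
  · intro e he
    have hnb : S.neg * (b : B).1 ∈ B := B.mul_mem hneg hbB
    have heB : e ∈ B := hin _ _ hnb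
      (fun e => b2 (Subtype.ext (eq_of_mul h _ _ e).symm)) he
    rcases b4 ⟨e, heB⟩ he with h5 | h5
    · exact Or.inl (congrArg Subtype.val h5)
    · exact Or.inr (congrArg Subtype.val h5)

/-- a value group of a rigid element has at most two elements -/
theorem vs_le_two {S : QData} {a : S.G} (hr : Hr S a) : vs S a ≤ 2 := by
  have hsub : {b : S.G | S.q a b = S.zero} ⊆ {1, S.neg * a} := fun b hb => hr b hb
  have h1 := Set.ncard_le_ncard hsub (Set.toFinite _)
  exact h1.trans (Set.ncard_insert_le _ _ |>.trans (by rw [Set.ncard_singleton]))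

theorem result (F : Type) [Field F] (h2 : (2 : F) ≠ 0) (hfin : (squares F).index ≠ 0)
    -- a non-birigid `x` with a norm group of order `n`
    (x : Fˣ) (hx : x ∉ squares F) (hxn : -x ∉ squares F)
    (hbi : 2 < (squares F).relIndex (normGroup x) ∨ 2 < (squares F).relIndex (normGroup (-x)))
    (hs : ∀ a : Fˣ, a ∉ squares F →
      16 * (squares F).relIndex (normGroup a) ^ 2 < (squares F).index)
    (hs' : ∀ a : Fˣ, a ∉ squares F →
      (squares F).relIndex (normGroup x) ^ 3 * (squares F).relIndex (normGroup a) ^ 2 ≤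
        2 * (squares F).index)
    (K : IntermediateField F (AlgebraicClosure F)) (hK : IsMaximalTwoExtension K) :
    -- `Gal(K/F)` is the decomposition group of a valuation with nontrivial inertia
    (∃ (Γ : Type) (_ : LinearOrderedCommGroupWithZero Γ) (w : Valuation K Γ),
      (∀ (σ : K ≃ₐ[F] K) (x : K), w (σ x) ≤ 1 ↔ w x ≤ 1) ∧
      ∃ σ : K ≃ₐ[F] K, σ ≠ 1 ∧ ∀ x : K, w x ≤ 1 → w (σ x - x) < 1) ∧
    -- the conclusion of Q1 for `p = 2`
    ∃ (n : ℕ) (H : Fin n → Subgroup (↥K ≃ₐ[F] ↥K)),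
      (∀ i, IsClosed (H i : Set (↥K ≃ₐ[F] ↥K))) ∧
      (∀ (P : Type) [Group P] [Finite P], (∃ k : ℕ, Nat.card P = 2 ^ k) →
        ∀ φ : (i : Fin n) → (H i →* P), (∀ i, IsOpen ((φ i).ker : Set (H i))) →
          ∃! ψ : (↥K ≃ₐ[F] ↥K) →* P,
            IsOpen (ψ.ker : Set (↥K ≃ₐ[F] ↥K)) ∧
            ∀ i, ∀ x : H i, ψ (x : ↥K ≃ₐ[F] ↥K) = φ i x) ∧
      (∀ i,
        Nonempty (H i ≃ₜ* Multiplicative (PadicInt 2)) ∨
        (∃ (Γ : Type) (_ : LinearOrderedCommGroupWithZero Γ) (w : Valuation (↥K) Γ),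
          (∀ σ : ↥K ≃ₐ[F] ↥K, σ ∈ H i ↔ ∀ x : ↥K, (w (σ x) ≤ 1 ↔ w x ≤ 1)) ∧
          ∃ σ ∈ H i, σ ≠ 1 ∧ ∀ x : ↥K, w x ≤ 1 → w (σ x - x) < 1) ∨
        ((2 : ℕ) = 2 ∧ Nat.card (H i) = 2)) := by
  have hF : FinSq F := by
    have : Finite (Fˣ ⧸ squares F) := by
      by_contra hc
      rw [not_finite_iff_infinite] at hc
      exact hfin Nat.card_eq_zero_of_infinite
    exact this
  obtain ⟨S, hS, hSf, hSq⟩ := exists_structure h2 hF
  obtain ⟨φ, hs1, hk, hn, h0, hq⟩ := hS
  obtain ⟨B, hB⟩ := Pool.Agent.Y67.ET.t_BASIC S hSq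
  have hcard' : Nat.card S.G = (squares F).index := card_eq hs1 hk
  have hvs : ∀ a : Fˣ, vs S (φ a) = (squares F).relIndex (normGroup a) := fun a =>
    Pool.Agent.Y920.ETC.vs_eq hs1 hk h0 hq h2 a
  have hne : ∀ a : Fˣ, φ a ≠ 1 → a ∉ squares F := by
    intro a ha hc
    apply ha
    rw [hk]
    exact mem_sqG.1 hc
  have hφ1 : ∀ a : Fˣ, a ∉ squares F → φ a ≠ 1 := by
    intro a ha hc
    apply ha
    rw [hk] at hc
    exact mem_sqG.2 hc
  have hx1 : φ x ≠ 1 := hφ1 x hx
  have hxneg : φ (-x) = S.neg * φ x := by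
    rw [← hn, ← map_mul]
    congr 1
    rw [neg_one_mul]
  have hxn1 : φ x ≠ S.neg := by
    intro e
    apply hφ1 _ hxn
    rw [hxneg, e, hSq.exp2]
  have hxB : φ x ∈ B := by
    rw [hB]
    rintro ⟨-, -, b3, b4⟩
    have h3 := vs_le_two b3
    have h4 := vs_le_two b4
    rw [hvs] at h3
    rw [← hxneg, hvs] at h4
    omega
  have hBc : 2 * Nat.card B < Nat.card S.G := by
    by_contra hcon
    push Not at hcon
    refine card_basic_small hSq B hB hxB hx1 hxn1 (fun g hg => ?_) (fun g hg => ?_)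
    · obtain ⟨a, rfl⟩ := hs1 g
      have := hs a (hne a hg)
      rw [hvs]
      omega
    · obtain ⟨a, rfl⟩ := hs1 g
      have := hs' a (hne a hg)
      rw [hvs, hvs]
      omega
  obtain ⟨O, hO, -, hc⟩ := exists_val hs1 hk hn h0 hq h2 B hB hBc
  have hD : DecInert F K := decInert Pool.Agent.Y620.ET.t_EXTV Pool.Agent.Y37.ET.t_MAX2 F h2 O hO
    hc K hK
  exact ⟨hD, efratTwo F K hD⟩

end Pool.Agent.Results.MP_600e55_nt.OneSmallNormGroup
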